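import Pool.Agent.H18.TXB.Targets
import Pool.Agent.H4.BKH.CHR

/-!
# The minimal equation of a function over the functions of a map (row CHY of txb_modules)
-/

set_option autoImplicit false

open MvPolynomial
open Pool.Agent.H12.ZD (pmap)
open Pool.Agent.H18.HIT Pool.Agent.H18.HX Pool.Agent.H18.VZ
open Pool.Agent.H8.ZA (HFam Const NA)
open Pool.Agent.H8.TD
open Pool.Agent.H8.TX
open Pool.Agent.H18.TE (lg Gc)
open Pool.Agent.H18.TXB
open Pool.Agent.H4.BKH

namespace Pool.Agent.H4.TXB

section hom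

variable {k : Type} [Field k]

/-- polynomials in `T` over the forms as polynomials over the field `k(T)` -/
noncomputable def te : Polynomial (Po 4 k) →+*
    MvPolynomial (Fin 4) (FractionRing (Polynomial k)) :=
  Polynomial.eval₂RingHom
    (MvPolynomial.map ((algebraMap (Polynomial k) (FractionRing (Polynomial k))).comp
      Polynomial.C))
    (MvPolynomial.C (algebraMap (Polynomial k) (FractionRing (Polynomial k)) Polynomial.X))

theorem coeff_te (A : Polynomial (Po 4 k)) (s : Fin 4 →₀ ℕ) :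
    ∃ q : Polynomial k, coeff s (te A) = algebraMap (Polynomial k) _ q ∧
      ∀ j, q.coeff j = coeff s (A.coeff j) := by
  induction A using Polynomial.induction_on' with
  | add A B hA hB =>
    obtain ⟨q, hq, hq'⟩ := hA
    obtain ⟨r, hr, hr'⟩ := hB
    refine ⟨q + r, ?_, fun j => ?_⟩
    · rw [map_add, coeff_add, hq, hr, map_add]
    · rw [Polynomial.coeff_add, hq', hr', Polynomial.coeff_add, coeff_add]
  | monomial n f =>
    refine ⟨Polynomial.C (coeff s f) * Polynomial.X ^ n, ?_, fun j => ?_⟩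
    · unfold te
      rw [Polynomial.coe_eval₂RingHom, Polynomial.eval₂_monomial, ← map_pow, mul_comm,
        coeff_C_mul, coeff_map, RingHom.comp_apply, ← map_pow, ← map_mul, mul_comm]
    · rw [Polynomial.coeff_C_mul_X_pow, Polynomial.coeff_monomial]
      by_cases h : n = j
      · rw [if_pos h, if_pos h.symm]
      · rw [if_neg h, if_neg (Ne.symm h), coeff_zero]

theorem te_hom {A : Polynomial (Po 4 k)} {a : ℕ} (h : ∀ j, (A.coeff j).IsHomogeneous a) :
    (te A).IsHomogeneous a := by
  intro s hs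
  obtain ⟨q, hq, hq'⟩ := coeff_te A s
  have hq0 : q ≠ 0 := by
    rintro rfl
    exact hs (by rw [hq, map_zero])
  obtain ⟨j, hj⟩ : ∃ j, q.coeff j ≠ 0 := by
    by_contra hcon
    push Not at hcon
    exact hq0 (Polynomial.ext fun j => by rw [hcon j, Polynomial.coeff_zero])
  rw [hq'] at hj
  exact h j hj

theorem hom_te {A : Polynomial (Po 4 k)} {a : ℕ} (h : (te A).IsHomogeneous a) (j : ℕ) :
    (A.coeff j).IsHomogeneous a := by
  intro s hs
  obtain ⟨q, hq, hq'⟩ := coeff_te A s
  apply h
  rw [hq]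
  intro h0
  rw [map_eq_zero_iff _ (IsFractionRing.injective (Polynomial k)
    (FractionRing (Polynomial k)))] at h0
  apply hs
  rw [← hq', h0, Polynomial.coeff_zero]

theorem te_ne {A : Polynomial (Po 4 k)} (h : A ≠ 0) : te A ≠ 0 := by
  intro h0
  apply h
  apply Polynomial.ext
  intro j
  apply MvPolynomial.ext
  intro s
  obtain ⟨q, hq, hq'⟩ := coeff_te A s
  rw [h0, coeff_zero] at hq
  have h1 : q = 0 := (map_eq_zero_iff _ (IsFractionRing.injective (Polynomial k)
    (FractionRing (Polynomial k)))).1 hq.symm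
  rw [← hq', h1, Polynomial.coeff_zero, Polynomial.coeff_zero, coeff_zero]

/-- a form is determined by its dehomogenization -/
theorem form_of_dh [Infinite k] {Q : Po 4 k} {b : ℕ} (hb : Q.IsHomogeneous b) {c : k}
    (hc : dh Q = C c) : Q = C c * X 0 ^ b := by
  have h1 : (Q - C c * X 0 ^ b) * X 0 = 0 := by
    apply MvPolynomial.funext
    intro y
    rw [map_mul, map_sub, map_mul, map_pow, eval_X, eval_C, map_zero]
    by_cases hy : y 0 = 0
    · rw [hy, mul_zero]
    · rw [eval_aff hb hy, hc, eval_C]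
      ring
  have h2 := (mul_eq_zero.1 h1).resolve_right (X_ne_zero 0)
  exact sub_eq_zero.1 h2

/-- a homogenization of the exact degree is not divisible by `X 0` -/
theorem not_X_dvd [Infinite k] {f : Po 3 k} (h0 : f ≠ 0) :
    ¬ (X 0 : Po 4 k) ∣ hz f.totalDegree f := by
  rintro ⟨t, ht⟩
  have hdh : dh (hz f.totalDegree f) = f := dh_hz le_rfl
  have hP0 : hz f.totalDegree f ≠ 0 := by
    intro h
    apply h0
    rw [← hdh, h, map_zero]
  have ht0 : t ≠ 0 := by
    rintro rfl
    exact hP0 (by rw [ht, mul_zero])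
  obtain ⟨b', c', hbc, hb', hc'⟩ := Pool.Agent.H39.TD.homog_mul (by
    rw [← ht]
    exact hz_hom le_rfl) (X_ne_zero (R := k) (0 : Fin 4)) ht0
  have h1 : b' = 1 := hb'.inj_right (isHomogeneous_X k 0) (X_ne_zero 0)
  have h2 : f = dh t := by
    conv_lhs => rw [← hdh, ht, map_mul]
    have h3 : dh (X 0 : Po 4 k) = 1 := by
      unfold dh
      rw [aeval_X, Fin.cons_zero]
    rw [h3, one_mul]
  have h3 : f.totalDegree ≤ c' := by
    conv_lhs => rw [h2]
    exact (totalDegree_dh_le t).trans hc'.totalDegree_le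
  omega

/-- the unit factor -/
theorem unit_factor [Infinite k] {A B : Polynomial (Po 4 k)} {a : ℕ}
    (hA : ∀ j, (A.coeff j).IsHomogeneous a)
    (hu : IsUnit (A.map (dh : Po 4 k →ₐ[k] Po 3 k).toRingHom)) {j0 : ℕ}
    (hX : ¬ (X 0 : Po 4 k) ∣ (A * B).coeff j0) : IsUnit A := by
  rw [Polynomial.isUnit_iff] at hu
  obtain ⟨r, hr, hr'⟩ := hu
  rw [MvPolynomial.isUnit_iff_eq_C_of_isReduced] at hr
  obtain ⟨c, hc, rfl⟩ := hr
  have hc0 : c ≠ 0 := hc.ne_zero
  have hcoef : ∀ j, dh (A.coeff j) = (Polynomial.C (C c : Po 3 k)).coeff j := by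
    intro j
    rw [hr', Polynomial.coeff_map]
    rfl
  have hA0 : A.coeff 0 = C c * X 0 ^ a := by
    apply form_of_dh (hA 0)
    rw [hcoef, Polynomial.coeff_C_zero]
  have hAj : ∀ j, j ≠ 0 → A.coeff j = 0 := by
    intro j hj
    have h1 : dh (A.coeff j) = C 0 := by
      rw [hcoef, Polynomial.coeff_C_ne_zero hj, C_0]
    rw [form_of_dh (hA j) h1, C_0, zero_mul]
  have hAC : A = Polynomial.C (C c * X 0 ^ a) := by
    apply Polynomial.ext
    intro j
    by_cases hj : j = 0
    · rw [hj, Polynomial.coeff_C_zero, hA0]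
    · rw [hAj j hj, Polynomial.coeff_C_ne_zero hj]
  have ha : a = 0 := by
    by_contra ha
    apply hX
    rw [hAC, Polynomial.coeff_C_mul]
    refine Dvd.dvd.mul_right ?_ _
    exact Dvd.dvd.mul_left (dvd_pow_self _ ha) _
  rw [hAC, ha, pow_zero, mul_one]
  exact ((isUnit_iff_ne_zero.2 hc0).map C).map Polynomial.C

/-- the homogenization of an irreducible polynomial is irreducible -/
theorem irr_hz [Infinite k] {P : Polynomial (Po 4 k)} {Y : ℕ}
    (hP : ∀ j, (P.coeff j).IsHomogeneous Y)
    (hi : Irreducible (P.map (dh : Po 4 k →ₐ[k] Po 3 k).toRingHom)) {j0 : ℕ}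
    (hX : ¬ (X 0 : Po 4 k) ∣ P.coeff j0) : Irreducible P := by
  have hP0 : P ≠ 0 := by
    rintro rfl
    apply hi.ne_zero
    rw [Polynomial.map_zero]
  refine ⟨fun hu => hi.not_isUnit (hu.map (Polynomial.mapRingHom _)), ?_⟩
  intro A B hAB
  have hA0 : A ≠ 0 := by
    rintro rfl
    exact hP0 (by rw [hAB, zero_mul])
  have hB0 : B ≠ 0 := by
    rintro rfl
    exact hP0 (by rw [hAB, mul_zero])
  obtain ⟨a, b, -, ha, hb⟩ := Pool.Agent.H39.TD.homog_mul (p := te A) (q := te B) (a := Y)
    (by rw [← map_mul, ← hAB]; exact te_hom hP) (te_ne hA0) (te_ne hB0)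
  rw [hAB, Polynomial.map_mul] at hi
  rcases hi.isUnit_or_isUnit rfl with h | h
  · left
    exact unit_factor (B := B) (fun j => hom_te ha j) h (by rw [← hAB]; exact hX)
  · right
    exact unit_factor (B := A) (fun j => hom_te hb j) h (by rw [mul_comm, ← hAB]; exact hX)

/-- the minimal equation is irreducible -/
theorem irr_minP {K : Type} [Field K] [Algebra k K] {φ : Fin 3 → K} {l : K}
    {p : Polynomial (Po 3 k)} (hp : MinP φ l p) : Irreducible p := by
  have key : ∀ A B : Polynomial (Po 3 k), p = A * B → psi φ l A = 0 → IsUnit B := by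
    intro A B hAB hA
    have hA0 : A ≠ 0 := by
      rintro rfl
      exact hp.ne (by rw [hAB, zero_mul])
    have hB0 : B ≠ 0 := by
      rintro rfl
      exact hp.ne (by rw [hAB, mul_zero])
    have h1 := hp.min A hA0 hA
    rw [hAB, Polynomial.natDegree_mul hA0 hB0] at h1
    have h2 : B.natDegree = 0 := by omega
    rw [Polynomial.natDegree_eq_zero] at h2
    obtain ⟨b, rfl⟩ := h2
    have hb0 : b ≠ 0 := by
      rintro rfl
      exact hB0 Polynomial.C_0
    by_contra hu
    have hbu : ¬ IsUnit b := fun h => hu (h.map Polynomial.C)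
    obtain ⟨d, hd, hdd⟩ := WfDvdMonoid.exists_irreducible_factor hbu hb0
    obtain ⟨j, hj⟩ := hp.cop d hd
    apply hj
    rw [hAB, Polynomial.coeff_mul_C]
    exact hdd.mul_left _
  refine ⟨fun hu => ?_, fun A B hAB => ?_⟩
  · have h1 := hu.map (psi φ l)
    rw [hp.root] at h1
    exact not_isUnit_zero h1
  · have h1 := hp.root
    rw [hAB, map_mul] at h1
    rcases mul_eq_zero.1 h1 with h | h
    · right
      exact key A B hAB h
    · left
      exact key B A (by rw [hAB, mul_comm]) h

theorem aeval_dh {K : Type} [Field K] [Algebra k K] (μ : Fin 3 → K) (Q : Po 4 k) :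
    aeval (Fin.cons 1 μ : Fin 4 → K) Q = aeval μ (dh Q) := by
  have h : (aeval (Fin.cons 1 μ : Fin 4 → K) : Po 4 k →ₐ[k] K) = (aeval μ).comp dh := by
    apply MvPolynomial.algHom_ext
    intro i
    rw [aeval_X, AlgHom.comp_apply]
    unfold dh
    rw [aeval_X]
    refine Fin.cases ?_ (fun i => ?_) i
    · rw [Fin.cons_zero, Fin.cons_zero, map_one]
    · rw [Fin.cons_succ, Fin.cons_succ, aeval_X]
  rw [h]
  rfl

end hom

theorem pf_CHY : T_CHY := by
  classical
  intro k K _ _ _ _ μ z htr halg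
  have hφ := (tb_of_gen μ halg htr).1
  have hint : ∀ y : K, IsIntegral (IntermediateField.adjoin k (Set.range μ)) y :=
    fun y => (halg.isAlgebraic y).isIntegral
  obtain ⟨q, hq0, hq1, -⟩ := exists_poly z (hint z)
  obtain ⟨p, hp⟩ := exists_minP hφ ⟨q, hq0, hq1⟩
  have hinj := hφ
  rw [algebraicIndependent_iff_injective_aeval] at hinj
  have hE : 1 ≤ p.natDegree := by
    by_contra hcon
    have h1 : p.natDegree = 0 := by omega
    rw [Polynomial.natDegree_eq_zero] at h1
    obtain ⟨c, hc⟩ := h1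
    have h2 := hp.root
    rw [← hc, psi_C] at h2
    apply hp.ne
    rw [← hc, (map_eq_zero_iff _ hinj).1 h2, Polynomial.C_0]
  -- the degree
  obtain ⟨j0, hj0, hj0'⟩ := Finset.exists_mem_eq_sup (Finset.range (p.natDegree + 1))
    ⟨0, Finset.mem_range.2 (Nat.succ_pos _)⟩ (fun j => (p.coeff j).totalDegree)
  set Y := (Finset.range (p.natDegree + 1)).sup (fun j => (p.coeff j).totalDegree) with hYdef
  have hY : ∀ j, (p.coeff j).totalDegree ≤ Y := by
    intro j
    by_cases hj : j ≤ p.natDegree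
    · exact Finset.le_sup (f := fun j => (p.coeff j).totalDegree)
        (Finset.mem_range.2 (Nat.lt_succ_of_le hj))
    · rw [Polynomial.coeff_eq_zero_of_natDegree_lt (by omega), totalDegree_zero]
      exact Nat.zero_le _
  have hlp : p.leadingCoeff ≠ 0 := Polynomial.leadingCoeff_ne_zero.2 hp.ne
  -- a coefficient of degree `Y`
  obtain ⟨j1, hj1, hj1', hj1''⟩ : ∃ j1, j1 ≤ p.natDegree ∧ (p.coeff j1).totalDegree = Y ∧
      p.coeff j1 ≠ 0 := by
    have hj1 : j0 ≤ p.natDegree := Nat.lt_succ_iff.1 (Finset.mem_range.1 hj0)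
    by_cases hYz : Y = 0
    · refine ⟨p.natDegree, le_rfl, ?_, hlp⟩
      have h1 := hY p.natDegree
      omega
    · refine ⟨j0, hj1, hj0'.symm, ?_⟩
      intro h
      rw [h, totalDegree_zero] at hj0'
      exact hYz hj0'
  have hsum : ∑ j : Fin (p.natDegree + 1),
      Polynomial.C (hz Y (p.coeff (p.natDegree - (j : ℕ)))) *
        Polynomial.X ^ (p.natDegree - (j : ℕ)) =
      ∑ j ∈ Finset.range (p.natDegree + 1), Polynomial.C (hz Y (p.coeff j)) *
        Polynomial.X ^ j := by
    rw [Fin.sum_univ_eq_sum_range (fun j => Polynomial.C (hz Y (p.coeff (p.natDegree - j))) *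
      Polynomial.X ^ (p.natDegree - j)) (p.natDegree + 1),
      ← Finset.sum_range_reflect (fun j => Polynomial.C (hz Y (p.coeff j)) *
        Polynomial.X ^ j) (p.natDegree + 1)]
    refine Finset.sum_congr rfl fun j _ => ?_
    rw [Nat.add_sub_cancel]
  have hcoef : ∀ i, (∑ j ∈ Finset.range (p.natDegree + 1), Polynomial.C (hz Y (p.coeff j)) *
      Polynomial.X ^ j).coeff i = if i ∈ Finset.range (p.natDegree + 1) then
        hz Y (p.coeff i) else 0 := by
    intro i
    rw [Polynomial.finsetSum_coeff]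
    simp_rw [Polynomial.coeff_C_mul_X_pow]
    rw [Finset.sum_ite_eq]
  refine ⟨p.natDegree, Y, fun j => hz Y (p.coeff (p.natDegree - (j : ℕ))), hE,
    fun j => hz_hom (hY _), ?_, ?_, ?_, ?_, fun s' s'' => deg_ineq htr halg hp hY s' s''⟩
  · apply cop_hz _ (fun j => hY _)
    · refine ⟨⟨p.natDegree - j1, by omega⟩, ?_, ?_⟩
      · change (p.coeff (p.natDegree - (p.natDegree - j1))).totalDegree = Y
        rw [Nat.sub_sub_self hj1]
        exact hj1'
      · change p.coeff (p.natDegree - (p.natDegree - j1)) ≠ 0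
        rw [Nat.sub_sub_self hj1]
        exact hj1''
    · intro d hd
      obtain ⟨j, hj⟩ := hp.cop d hd
      have hj2 : j ≤ p.natDegree := by
        by_contra hcon
        rw [Polynomial.coeff_eq_zero_of_natDegree_lt (by omega)] at hj
        exact hj (dvd_zero _)
      refine ⟨⟨p.natDegree - j, by omega⟩, ?_⟩
      change ¬ d ∣ p.coeff (p.natDegree - (p.natDegree - j))
      rw [Nat.sub_sub_self hj2]
      exact hj
  · intro h
    have h1 : dh (hz Y (p.coeff (p.natDegree - ((0 : Fin (p.natDegree + 1)) : ℕ)))) = 0 := by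
      have h' : hz Y (p.coeff (p.natDegree - ((0 : Fin (p.natDegree + 1)) : ℕ))) = 0 := h
      rw [h', map_zero]
    rw [dh_hz (hY _)] at h1
    have h2 : p.natDegree - ((0 : Fin (p.natDegree + 1)) : ℕ) = p.natDegree := by
      rw [Fin.val_zero, Nat.sub_zero]
    rw [h2] at h1
    exact hlp h1
  · rw [hsum]
    refine irr_hz (Y := Y) (j0 := j1) ?_ ?_ ?_
    · intro j
      rw [hcoef]
      split_ifs with h
      · exact hz_hom (hY _)
      · exact isHomogeneous_zero _ _ _
    · have h1 : (∑ j ∈ Finset.range (p.natDegree + 1), Polynomial.C (hz Y (p.coeff j)) *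
          Polynomial.X ^ j).map (dh : Po 4 k →ₐ[k] Po 3 k).toRingHom = p := by
        apply Polynomial.ext
        intro i
        rw [Polynomial.coeff_map, hcoef]
        split_ifs with h
        · change dh (hz Y (p.coeff i)) = _
          exact dh_hz (hY i)
        · rw [map_zero, Polynomial.coeff_eq_zero_of_natDegree_lt]
          rw [Finset.mem_range] at h
          omega
      rw [h1]
      exact irr_minP hp
    · rw [hcoef, if_pos (Finset.mem_range.2 (Nat.lt_succ_of_le hj1)), ← hj1']
      exact not_X_dvd hj1''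
  · have h1 : ∀ j : Fin (p.natDegree + 1), aeval (Fin.cons 1 μ : Fin 4 → K)
        (hz Y (p.coeff (p.natDegree - (j : ℕ)))) * z ^ (p.natDegree - (j : ℕ)) =
        (aeval μ : Po 3 k →ₐ[k] K).toRingHom (p.coeff (p.natDegree - (j : ℕ))) *
          z ^ (p.natDegree - (j : ℕ)) := by
      intro j
      rw [aeval_dh, dh_hz (hY _)]
      rfl
    rw [Finset.sum_congr rfl fun j _ => h1 j,
      Fin.sum_univ_eq_sum_range (fun j => (aeval μ : Po 3 k →ₐ[k] K).toRingHom
        (p.coeff (p.natDegree - j)) * z ^ (p.natDegree - j)) (p.natDegree + 1)]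
    have h2 := Finset.sum_range_reflect (fun j => (aeval μ : Po 3 k →ₐ[k] K).toRingHom
      (p.coeff j) * z ^ j) (p.natDegree + 1)
    simp only [Nat.add_sub_cancel] at h2
    rw [h2, ← Polynomial.eval₂_eq_sum_range]
    exact hp.root

end Pool.Agent.H4.TXB
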